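import Mathlib
import Pool.Agent.H14.Cake

set_option autoImplicit false

namespace Pool.Agent.Results.MP_ee2dc8_co.Additive

open Pool.Agent.H14.Cake in
theorem result : ∃ (V : Type) (_ : Fintype V) (_ : DecidableEq V) (G : SimpleGraph V) (n : ℕ)
    (w : Fin n → V → V → NNReal), 1 ≤ n ∧ (∀ i u v, w i u v ≠ 0 → G.Adj u v) ∧
    ∀ A : Fin n → Set (V → ℝ), IsAlloc G A → ∃ i, val (w i) (A i) < mms G (w i) n :=
  ⟨W, inferInstance, inferInstance, G, 4, w, by norm_num, w_adj, main⟩

end Pool.Agent.Results.MP_ee2dc8_co.Additive
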